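import Pool.Agent.Helper22.Mall.Process

/-! A `𝔻^∞`-derivation of the Wiener space which is not a vector field plus `div A grad`. -/

namespace Pool.Agent.Results.MP_4215b8_pr.NonlocalDerivation

open MeasureTheory
open Pool.Agent.Helper22.Mall.Wiener

/-- Let `n ≥ 1` and let `W(h) = ∫₀¹ h·dB`, `h ∈ L²([0,1]; ℝⁿ)`, be the Wiener integral on a
probability space whose `σ`-algebra is generated by `W` up to null sets. Then there is a
`𝔻^∞`-derivation `δ` that cannot be written as `δ F = ⟨grad F, X⟩ + div (A grad F)`, `F ∈ 𝔻^∞`,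
with `X ∈ L²(Ω; H)` and a process `A` of antisymmetric matrices. -/
theorem result {n : ℕ} (hn : 0 < n) {Ω : Type*} [MeasurableSpace Ω] {P : Measure Ω}
    {W : (ℝ → Fin n → ℝ) → Ω → ℝ} (hW : IsWienerIntegral P W) (hgen : Generates P W) :
    ∃ δ : (Ω → ℝ) → Ω → ℝ, IsDerivation P W δ ∧ ¬ IsDecomposable P W δ :=
  main hn hW hgen

end Pool.Agent.Results.MP_4215b8_pr.NonlocalDerivation
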